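import Mathlib
import Pool.Agent.H55.PPt

/-! Under CH some non-p-point `U` has `(U, ⊇*) <_T (U, ⊇)`. -/

namespace Pool.Agent.Results.MP_8fdcc7_lc.NonPPoint

open Set Filter
open Cardinal hiding univ

/-- p-points: countable subfamilies have a pseudo-intersection in `U` -/
def IsPPoint (U : Ultrafilter ℕ) : Prop :=
  ∀ 𝒜 : Set (Set ℕ), 𝒜.Countable → (∀ A ∈ 𝒜, A ∈ U) → ∃ B ∈ U, ∀ A ∈ 𝒜, (B \ A).Finite

/-- `(P, r) ≤_T (Q, s)`: some map sends unbounded sets to unbounded sets -/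
def TukeyLE {P Q : Type} (r : P → P → Prop) (s : Q → Q → Prop) : Prop :=
  ∃ f : P → Q, ∀ S : Set P, (¬ ∃ b, ∀ a ∈ S, r a b) → ¬ ∃ c, ∀ a ∈ S, s (f a) c

/-- the preorder `(U, ⊇)` -/
def sup (U : Ultrafilter ℕ) (A B : {A : Set ℕ // A ∈ U}) : Prop := B.1 ⊆ A.1

/-- the preorder `(U, ⊇*)` -/
def supStar (U : Ultrafilter ℕ) (A B : {A : Set ℕ // A ∈ U}) : Prop := (B.1 \ A.1).Finite

open Pool.Agent.H55.PPt

noncomputable def prod (V W : Ultrafilter ℕ) : Ultrafilter ℕ :=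
  V.bind fun n => W.map (Nat.pair n)

theorem mem_prod {V W : Ultrafilter ℕ} {B : Set ℕ} :
    B ∈ prod V W ↔ {n | Nat.pair n ⁻¹' B ∈ W} ∈ V := Filter.mem_bind'

def box (N : Set ℕ) (A : ℕ → Set ℕ) : Set ℕ := {x | x.unpair.1 ∈ N ∧ x.unpair.2 ∈ A x.unpair.1}

theorem box_mem {V W : Ultrafilter ℕ} {N : Set ℕ} {A : ℕ → Set ℕ} (hN : N ∈ V)
    (hA : ∀ n, A n ∈ W) : box N A ∈ prod V W :=
  mem_prod.2 (mem_of_superset hN fun n hn => mem_of_superset (hA n) fun m hm => by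
    simp [box, hn, hm])

theorem pinj (n : ℕ) : Function.Injective (Nat.pair n) := fun _ _ h => (Nat.pair_eq_pair.1 h).2

theorem main {V W : Ultrafilter ℕ} (hW : PP W) (h : TukeyLE (sup (prod V W)) (supStar (prod V W))) :
    ∃ g : Set ℕ → Set ℕ, (∀ A ∈ V, g A ∈ W) ∧ (∀ A ∈ V, ∀ B, A ⊆ B → g A ⊆ g B) ∧
      ∀ B ∈ W, ∃ A ∈ V, g A ⊆ B := by
  classical
  obtain ⟨f, hf⟩ := h
  let H : Set ℕ → Set ℕ := fun B => ⋂ A ∈ {A | (B \ (f A).1).Finite}, A.1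
  have hH : ∀ B ∈ prod V W, H B ∈ prod V W := fun B hB => by
    by_contra hn
    refine hf {A | (B \ (f A).1).Finite} ?_ ⟨⟨B, hB⟩, fun A hA => hA⟩
    rintro ⟨b, hb⟩
    exact hn (mem_of_superset b.2 (subset_iInter₂ hb))
  have hmono : ∀ B B', (B' \ B).Finite → H B' ⊆ H B := fun B B' h =>
    biInter_subset_biInter_left fun A hA => fin_trans h hA
  let F : Set ℕ → Set ℕ := fun N => ⋂ A ∈ {A : ℕ → Set ℕ | ∀ n, A n ∈ W}, H (box N A)
  have hF : ∀ N ∈ V, F N ∈ prod V W := fun N hN => by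
    have : ∀ x, ∃ A : ℕ → Set ℕ, (∀ n, A n ∈ W) ∧ (x ∉ F N → x ∉ H (box N A)) := fun x => by
      by_cases hx : x ∈ F N
      · exact ⟨fun _ => univ, fun _ => univ_mem, fun h => absurd hx h⟩
      · simp only [F, mem_iInter, not_forall] at hx
        obtain ⟨A, h1, h2⟩ := hx
        exact ⟨A, h1, fun _ => h2⟩
    choose A hA1 hA2 using this
    obtain ⟨C, hC, hC'⟩ := hW (range fun p : ℕ × ℕ => A p.1 p.2) (countable_range _)
      (by rintro _ ⟨p, rfl⟩; exact hA1 _ _)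
    refine mem_of_superset (hH _ (box_mem (A := fun n => C ∩ ⋂ k ∈ Finset.range (n + 1), A k n) hN
      fun n => inter_mem hC ((biInter_finset_mem _).2 fun k _ => hA1 k n))) fun x hx => ?_
    by_contra hn
    refine hA2 x hn (hmono _ _ ?_ hx)
    refine ((finite_Iio x).biUnion fun n _ =>
      (hC' _ ⟨(x, n), rfl⟩).image (Nat.pair n)).subset ?_
    rintro y ⟨⟨h1, h2, h3⟩, h4⟩
    have h5 : y.unpair.2 ∉ A x y.unpair.1 := fun h => h4 ⟨h1, h⟩
    refine mem_biUnion (x := y.unpair.1) (mem_Iio.2 (not_le.1 fun h => h5 ?_))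
      ⟨_, ⟨h2, h5⟩, Nat.pair_unpair y⟩
    exact mem_iInter₂.1 h3 x (Finset.mem_range.2 (by omega))
  refine ⟨fun N => (fun x => x.unpair.2) '' F N, fun N hN => ?_, fun N _ N' h => image_mono ?_,
    fun B hB => ?_⟩
  · obtain ⟨n, hn⟩ := Ultrafilter.nonempty_of_mem (mem_prod.1 (hF N hN))
    exact mem_of_superset hn fun m hm => ⟨_, hm, by simp⟩
  · refine iInter₂_mono fun A _ => hmono _ _ (finite_empty.subset ?_)
    rintro y ⟨h1, h2⟩
    exact h2 ⟨h h1.1, h1.2⟩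
  · let B' : {A : Set ℕ // A ∈ prod V W} := ⟨box univ fun _ => B, box_mem univ_mem fun _ => hB⟩
    refine ⟨_, mem_prod.1 (f B').2, ?_⟩
    rintro _ ⟨x, hx, rfl⟩
    have h1 := mem_iInter₂.1 hx
      (fun n => if Nat.pair n ⁻¹' (f B').1 ∈ W then Nat.pair n ⁻¹' (f B').1 else univ)
      fun n => by
        beta_reduce
        split_ifs with h
        · exact h
        · exact univ_mem
    refine (mem_iInter₂.1 h1 B' (finite_empty.subset ?_)).2
    rintro y ⟨⟨h2, h3⟩, h4⟩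
    beta_reduce at h3
    rw [if_pos (show Nat.pair y.unpair.1 ⁻¹' (f B').1 ∈ W from h2), mem_preimage,
      Nat.pair_unpair] at h3
    exact h4 h3

theorem result (CH : (2 : Cardinal.{0}) ^ ℵ₀ = ℵ_ 1) :
    ∃ U : Ultrafilter ℕ, (U : Filter ℕ) ≤ cofinite ∧ ¬ IsPPoint U ∧
      TukeyLE (supStar U) (sup U) ∧ ¬ TukeyLE (sup U) (supStar U) := by
  obtain ⟨V, W, v1, -, w1, w2, h⟩ := exists_pair CH
  refine ⟨prod V W, fun A hA => mem_prod.2 (univ_mem' fun n =>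
    w1 ((pinj n).tendsto_cofinite hA)), fun hP => ?_, ⟨id, ?_⟩, fun h' => h (main w2 h')⟩
  · obtain ⟨B, hB, h1⟩ := hP (range fun k => box (Iic k)ᶜ fun _ => univ) (countable_range _) (by
      rintro _ ⟨k, rfl⟩
      exact box_mem (v1 (finite_Iic k).compl_mem_cofinite) fun _ => univ_mem)
    obtain ⟨n, hn⟩ := Ultrafilter.nonempty_of_mem (mem_prod.1 hB)
    refine inf_of_mem w1 hn (((h1 _ ⟨n, rfl⟩).preimage (pinj n).injOn).subset fun m hm => ⟨hm, ?_⟩)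
    simp [box]
  · rintro S hS ⟨c, hc⟩
    exact hS ⟨c, fun a ha => finite_empty.subset fun x hx => hx.2 (hc a ha hx.1)⟩

end Pool.Agent.Results.MP_8fdcc7_lc.NonPPoint
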